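import Mathlib

/-!
# Far-from-far graphs: the dual problem need not reduce to tolerant testing

We answer Q1 of `MP_cccbef_lc` in the negative.  The property is a property of the number of edges.
-/

open scoped ENNReal

namespace Pool.Agent.Results.MP_cccbef_lc.FarFromFarGraphs

/-- `Δ(G, H)`: the number of vertex pairs on which `G` and `H` differ. -/
noncomputable def gdist {v : ℕ} (G H : SimpleGraph (Fin v)) : ℕ :=
  (symmDiff G.edgeSet H.edgeSet).ncard

/-- `Δ(G, S) = min_{H ∈ S} Δ(G, H)`, which is `∞` for empty `S`. -/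
noncomputable def distTo {v : ℕ} (G : SimpleGraph (Fin v)) (S : Set (SimpleGraph (Fin v))) :
    ℝ≥0∞ :=
  ⨅ H ∈ S, (gdist G H : ℝ≥0∞)

/-- `F_δ(S)`: the graphs at distance at least `δ` from `S`. -/
noncomputable def Far {v : ℕ} (δ : ℝ) (S : Set (SimpleGraph (Fin v))) :
    Set (SimpleGraph (Fin v)) :=
  {G | ENNReal.ofReal δ ≤ distTo G S}

/-- A graph property: a set of graphs on `{1, …, v}` for every `v`, closed under isomorphism. -/
def IsGraphProperty (P : (v : ℕ) → Set (SimpleGraph (Fin v))) : Prop :=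
  ∀ (v : ℕ) (G H : SimpleGraph (Fin v)), Nonempty (G ≃g H) → G ∈ P v → H ∈ P v

/-- The dual problem of `P` reduces to tolerant testing: there is `ε₀ > 0` such that for every
`ε ∈ (0, ε₀]` there are `α < 1` and `v₀` with `F_δ(F_δ(P_v)) ⊆ {G : Δ(G, P_v) ≤ α δ}`,
`δ = ε C(v,2)`, for all `v ≥ v₀`. -/
def DualReducesToTolerant (P : (v : ℕ) → Set (SimpleGraph (Fin v))) : Prop :=
  ∃ ε₀ : ℝ, 0 < ε₀ ∧ ∀ ε : ℝ, 0 < ε → ε ≤ ε₀ → ∃ α : ℝ, α < 1 ∧ ∃ v₀ : ℕ, ∀ v : ℕ, v₀ ≤ v →
    ∀ G ∈ Far (ε * (v.choose 2 : ℝ)) (Far (ε * (v.choose 2 : ℝ)) (P v)),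
      distTo G (P v) ≤ ENNReal.ofReal (α * (ε * (v.choose 2 : ℝ)))

open Classical in
/-- number of edges -/
noncomputable def ec {v : ℕ} (G : SimpleGraph (Fin v)) : ℕ := G.edgeFinset.card

open Classical in
lemma gdist_eq {v : ℕ} (G H : SimpleGraph (Fin v)) :
    gdist G H = (symmDiff G.edgeFinset H.edgeFinset).card := by
  unfold gdist
  rw [← Set.ncard_coe_finset]
  congr 1
  rw [Finset.coe_symmDiff, SimpleGraph.coe_edgeFinset, SimpleGraph.coe_edgeFinset]

open Classical in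
lemma ec_le_add {v : ℕ} (G H : SimpleGraph (Fin v)) : ec G ≤ ec H + gdist G H := by
  rw [gdist_eq]
  unfold ec
  have h : G.edgeFinset ⊆ H.edgeFinset ∪ symmDiff G.edgeFinset H.edgeFinset := by
    intro e he
    by_cases h : e ∈ H.edgeFinset
    · exact Finset.mem_union_left _ h
    · exact Finset.mem_union_right _ (by rw [Finset.mem_symmDiff]; exact Or.inl ⟨he, h⟩)
  exact (Finset.card_le_card h).trans (Finset.card_union_le _ _)

lemma gdist_comm {v : ℕ} (G H : SimpleGraph (Fin v)) : gdist G H = gdist H G := by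
  unfold gdist
  rw [symmDiff_comm]

open Classical in
lemma top_card (v : ℕ) : (⊤ : SimpleGraph (Fin v)).edgeFinset.card = v.choose 2 := by
  have := SimpleGraph.card_edgeFinset_top_eq_card_choose_two (V := Fin v)
  rw [Fintype.card_fin] at this
  rw [← this]

open Classical in
/-- From a graph with any number of edges one can reach every number of edges `m ≤ C(v, 2)` by
changing exactly `|m - e(G)|` pairs. -/
lemma exists_near {v : ℕ} (G : SimpleGraph (Fin v)) (m : ℕ) (hm : m ≤ v.choose 2) :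
    ∃ H : SimpleGraph (Fin v), ec H = m ∧ ((gdist G H : ℤ) = |(m : ℤ) - ec G|) := by
  have key : ∀ s : Finset (Sym2 (Fin v)), s ⊆ (⊤ : SimpleGraph (Fin v)).edgeFinset →
      ∀ (inst : Fintype (SimpleGraph.fromEdgeSet (s : Set (Sym2 (Fin v)))).edgeSet),
      @SimpleGraph.edgeFinset _ (SimpleGraph.fromEdgeSet (s : Set (Sym2 (Fin v)))) inst = s := by
    intro s hs _
    ext e
    rw [SimpleGraph.mem_edgeFinset, SimpleGraph.edgeSet_fromEdgeSet]
    constructor
    · rintro ⟨h, -⟩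
      exact h
    · intro h
      refine ⟨h, ?_⟩
      have := hs h
      rw [SimpleGraph.mem_edgeFinset, SimpleGraph.edgeSet_top] at this
      exact this
  have hG : G.edgeFinset ⊆ (⊤ : SimpleGraph (Fin v)).edgeFinset :=
    SimpleGraph.edgeFinset_mono le_top
  rcases le_total m (ec G) with h | h
  · obtain ⟨s, hs1, hs2⟩ := Finset.exists_subset_card_eq h
    refine ⟨SimpleGraph.fromEdgeSet (s : Set (Sym2 (Fin v))), ?_, ?_⟩
    · unfold ec
      rw [key s (hs1.trans hG) _]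
      exact hs2
    · rw [gdist_eq, key s (hs1.trans hG) _]
      have h1 : symmDiff G.edgeFinset s = G.edgeFinset \ s := by
        ext e
        rw [Finset.mem_symmDiff, Finset.mem_sdiff]
        constructor
        · rintro (h | h)
          · exact h
          · exact absurd (hs1 h.1) h.2
        · exact Or.inl
      rw [h1, Finset.card_sdiff_of_subset hs1, hs2]
      unfold ec at *
      rw [abs_of_nonpos (by omega)]
      omega
  · obtain ⟨s, hs1, hs2, hs3⟩ := Finset.exists_subsuperset_card_eq hG h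
      (by rw [top_card]; exact hm)
    refine ⟨SimpleGraph.fromEdgeSet (s : Set (Sym2 (Fin v))), ?_, ?_⟩
    · unfold ec
      rw [key s hs2 _]
      exact hs3
    · rw [gdist_eq, key s hs2 _]
      have h1 : symmDiff G.edgeFinset s = s \ G.edgeFinset := by
        ext e
        rw [Finset.mem_symmDiff, Finset.mem_sdiff]
        constructor
        · rintro (h | h)
          · exact absurd (hs1 h.1) h.2
          · exact h
        · exact Or.inr
      rw [h1, Finset.card_sdiff_of_subset hs1, hs3]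
      unfold ec at *
      rw [abs_of_nonneg (by omega)]
      omega

/-- The allowed numbers of edges: `2 a + 1` and `4 a - 1` for `a = ⌊C(v,2) / 2^k⌋`, `k ≥ 3`. -/
def Counts (v : ℕ) : Set ℕ :=
  {m | ∃ k : ℕ, 3 ≤ k ∧ 1 ≤ v.choose 2 / 2 ^ k ∧
    (m = 2 * (v.choose 2 / 2 ^ k) + 1 ∨ m = 4 * (v.choose 2 / 2 ^ k) - 1)}

/-- The graph property: the number of edges is an allowed number. -/
def Pi₀ (v : ℕ) : Set (SimpleGraph (Fin v)) := {G | ec G ∈ Counts v}

lemma pi₀_prop : IsGraphProperty Pi₀ := by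
  classical
  rintro v G H ⟨f⟩ hG
  have : ec G = ec H := by
    unfold ec
    exact f.card_edgeFinset_eq
  change ec H ∈ Counts v
  rw [← this]
  exact hG

/-- the allowed numbers stay away from `3 a` -/
lemma counts_far {v k m : ℕ} (hm : m ∈ Counts v) :
    ((v.choose 2 / 2 ^ k : ℕ) : ℤ) - 1 ≤ |(m : ℤ) - 3 * ((v.choose 2 / 2 ^ k : ℕ) : ℤ)| := by
  obtain ⟨j, -, hj1, hj⟩ := hm
  set C := v.choose 2
  have hdiv : ∀ i : ℕ, C / 2 ^ (i + 1) = C / 2 ^ i / 2 := by
    intro i
    rw [pow_succ, Nat.div_div_eq_div_mul]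
  have hmono : ∀ i l : ℕ, i < l → 2 * (C / 2 ^ l) ≤ C / 2 ^ i := by
    intro i l hil
    have h1 : C / 2 ^ l ≤ C / 2 ^ (i + 1) :=
      Nat.div_le_div_left (Nat.pow_le_pow_right (by norm_num) hil) (by positivity)
    rw [hdiv] at h1
    omega
  rcases lt_trichotomy j k with h | h | h
  · have h1 := hmono j k h
    rw [abs_of_nonneg (by omega)]
    omega
  · subst h
    rcases hj with hj | hj
    · rw [abs_of_nonpos (by omega)]
      omega
    · rw [abs_of_nonneg (by omega)]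
      omega
  · have h1 := hmono k j h
    rw [abs_of_nonpos (by omega)]
    omega

lemma distTo_lt_of {v : ℕ} {δ : ℝ} (G : SimpleGraph (Fin v)) (m : ℕ) (hm : m ∈ Counts v)
    (hmC : m ≤ v.choose 2) (h : ((|(m : ℤ) - ec G| : ℤ) : ℝ) < δ) : G ∉ Far δ (Pi₀ v) := by
  intro hG
  obtain ⟨H, hH1, hH2⟩ := exists_near G m hmC
  have h1 : ENNReal.ofReal δ ≤ distTo G (Pi₀ v) := hG
  have h2 : distTo G (Pi₀ v) ≤ (gdist G H : ℝ≥0∞) := by
    unfold distTo
    exact iInf₂_le H (show ec H ∈ Counts v by rw [hH1]; exact hm)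
  have h3 : (gdist G H : ℝ) < δ := by
    rw [← hH2] at h
    exact_mod_cast h
  have h4 : ENNReal.ofReal δ ≤ ENNReal.ofReal (gdist G H : ℝ) := by
    rw [ENNReal.ofReal_natCast]
    exact h1.trans h2
  have h5 := (ENNReal.ofReal_le_ofReal_iff (by positivity)).1 h4
  linarith

/-- main construction -/
lemma main {v k : ℕ} (hk : 3 ≤ k) (hC : 2 ^ (k + 1) ≤ v.choose 2) :
    ∃ G ∈ Far ((1 / 2) ^ k * (v.choose 2 : ℝ)) (Far ((1 / 2) ^ k * (v.choose 2 : ℝ)) (Pi₀ v)),
      ENNReal.ofReal ((1 / 2) ^ k * (v.choose 2 : ℝ) - 2) ≤ distTo G (Pi₀ v) := by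
  set C := v.choose 2 with hCdef
  set a := C / 2 ^ k with ha
  have hpk : 0 < 2 ^ k := by positivity
  have ha2 : 2 ≤ a := by
    rw [ha, Nat.le_div_iff_mul_le hpk]
    rw [pow_succ] at hC
    omega
  have ha1 : a * 2 ^ k ≤ C := Nat.div_mul_le_self _ _
  have ha3 : C < (a + 1) * 2 ^ k := by
    have := Nat.lt_div_mul_add (a := C) hpk
    rw [← ha] at this
    nlinarith
  have h8 : 8 ≤ 2 ^ k := by
    calc 8 = 2 ^ 3 := by norm_num
      _ ≤ 2 ^ k := Nat.pow_le_pow_right (by norm_num) hk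
  have h4a : 4 * a ≤ C := by nlinarith
  set δ : ℝ := (1 / 2) ^ k * (C : ℝ) with hδ
  have hpkR : (0 : ℝ) < 2 ^ k := by positivity
  have hδ' : δ = (C : ℝ) / 2 ^ k := by
    rw [hδ, one_div, inv_pow]
    field_simp
  have hδ1 : (a : ℝ) ≤ δ := by
    rw [hδ', le_div_iff₀ hpkR]
    exact_mod_cast ha1
  have hδ2 : δ < a + 1 := by
    rw [hδ', div_lt_iff₀ hpkR]
    exact_mod_cast ha3
  have haR : (2 : ℝ) ≤ a := by exact_mod_cast ha2
  obtain ⟨G, hG, -⟩ := exists_near (⊥ : SimpleGraph (Fin v)) (3 * a) (by omega)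
  have hm1 : 2 * a + 1 ∈ Counts v := ⟨k, hk, (show 1 ≤ a by omega), Or.inl rfl⟩
  have hm2 : 4 * a - 1 ∈ Counts v := ⟨k, hk, (show 1 ≤ a by omega), Or.inr rfl⟩
  refine ⟨G, ?_, ?_⟩
  · change ENNReal.ofReal δ ≤ distTo G (Far δ (Pi₀ v))
    unfold distTo
    refine le_iInf₂ (fun H hH => ?_)
    by_contra hcon
    push Not at hcon
    rw [← ENNReal.ofReal_natCast, ENNReal.ofReal_lt_ofReal_iff (by linarith)] at hcon
    have h1 := ec_le_add G H
    have h2 := ec_le_add H G
    rw [gdist_comm H G] at h2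
    have h3 : gdist G H ≤ a := by
      have : (gdist G H : ℝ) < a + 1 := hcon.trans hδ2
      have h' : gdist G H < a + 1 := by exact_mod_cast this
      omega
    rcases le_total (ec H) (3 * a) with h | h
    · refine distTo_lt_of H (2 * a + 1) hm1 (by omega) ?_ hH
      have : |((2 * a + 1 : ℕ) : ℤ) - ec H| ≤ a - 1 := by
        rw [abs_le]
        constructor <;> omega
      have h4 : ((|((2 * a + 1 : ℕ) : ℤ) - ec H| : ℤ) : ℝ) ≤ (((a : ℤ) - 1 : ℤ) : ℝ) := by
        exact_mod_cast this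
      push_cast at h4 ⊢
      linarith
    · refine distTo_lt_of H (4 * a - 1) hm2 (by omega) ?_ hH
      have : |((4 * a - 1 : ℕ) : ℤ) - ec H| ≤ a - 1 := by
        rw [abs_le]
        constructor <;> omega
      have h4 : ((|((4 * a - 1 : ℕ) : ℤ) - ec H| : ℤ) : ℝ) ≤ (((a : ℤ) - 1 : ℤ) : ℝ) := by
        exact_mod_cast this
      have h5 : (((a : ℤ) - 1 : ℤ) : ℝ) = (a : ℝ) - 1 := by push_cast; ring
      rw [h5] at h4
      linarith
  · unfold distTo
    refine le_iInf₂ (fun H hH => ?_)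
    rw [← ENNReal.ofReal_natCast]
    apply ENNReal.ofReal_le_ofReal
    have h1 := ec_le_add G H
    have h2 := ec_le_add H G
    rw [gdist_comm H G] at h2
    have h3 : ((C / 2 ^ k : ℕ) : ℤ) - 1 ≤ |(ec H : ℤ) - 3 * ((C / 2 ^ k : ℕ) : ℤ)| :=
      counts_far (k := k) (show ec H ∈ Counts v from hH)
    rw [← ha] at h3
    have h4 : |(ec H : ℤ) - 3 * (a : ℤ)| ≤ gdist G H := by
      rw [abs_le]
      constructor <;> omega
    have h5 : ((a : ℤ) : ℤ) - 1 ≤ gdist G H := h3.trans h4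
    have h6 : (a : ℝ) - 1 ≤ gdist G H := by exact_mod_cast h5
    linarith

lemma choose_large (N : ℕ) : ∀ v : ℕ, N + 2 ≤ v → N ≤ v.choose 2 := by
  intro v hv
  have h1 : v.choose 2 = v * (v - 1) / 2 := Nat.choose_two_right v
  rw [h1, Nat.le_div_iff_mul_le (by norm_num)]
  have : N ≤ v - 1 := by omega
  nlinarith [show 2 ≤ v by omega]

/-- **Negative answer to Q1.**  There is a graph property `P` (a condition on the number of edges)
such that for all `k ≥ 3` and all large `v`, with `δ = 2^{-k} C(v,2)`, some graph in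
`F_δ(F_δ(P_v))` is at distance at least `δ - 2` from `P_v`; in particular the dual problem of `P`
does not reduce to tolerant testing. -/
theorem result : ∃ P : (v : ℕ) → Set (SimpleGraph (Fin v)), IsGraphProperty P ∧
    (∀ (v : ℕ) (G H : SimpleGraph (Fin v)), G.edgeSet.ncard = H.edgeSet.ncard →
      (G ∈ P v ↔ H ∈ P v)) ∧
    (∀ k : ℕ, 3 ≤ k → ∃ v₀ : ℕ, ∀ v : ℕ, v₀ ≤ v →
      ∃ G ∈ Far ((1 / 2) ^ k * (v.choose 2 : ℝ)) (Far ((1 / 2) ^ k * (v.choose 2 : ℝ)) (P v)),
        ENNReal.ofReal ((1 / 2) ^ k * (v.choose 2 : ℝ) - 2) ≤ distTo G (P v)) ∧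
    ¬ DualReducesToTolerant P := by
  refine ⟨Pi₀, pi₀_prop, ?_, ?_, ?_⟩
  · intro v G H h
    classical
    have h' : ∀ K : SimpleGraph (Fin v), ec K = K.edgeSet.ncard := by
      intro K
      unfold ec
      rw [← Set.ncard_coe_finset, SimpleGraph.coe_edgeFinset]
    change ec G ∈ Counts v ↔ ec H ∈ Counts v
    rw [h' G, h' H, h]
  · intro k hk
    exact ⟨2 ^ (k + 1) + 2, fun v hv => main hk (choose_large _ v hv)⟩
  · rintro ⟨ε₀, hε₀, h⟩
    obtain ⟨k', hk'⟩ := exists_pow_lt_of_lt_one hε₀ (show (1 / 2 : ℝ) < 1 by norm_num)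
    set k := max 3 k' with hkdef
    have hk3 : 3 ≤ k := le_max_left _ _
    have hkε : (1 / 2 : ℝ) ^ k ≤ ε₀ := by
      refine le_trans ?_ hk'.le
      exact pow_le_pow_of_le_one (by norm_num) (by norm_num) (le_max_right _ _)
    obtain ⟨α, hα, v₀, hv₀⟩ := h ((1 / 2) ^ k) (by positivity) hkε
    -- choose `v` with `(1 - α) δ > 2`
    obtain ⟨N, hN⟩ := exists_nat_gt (2 * 2 ^ k / (1 - α))
    set v := max v₀ (max (2 ^ (k + 2)) N + 2) with hv
    have hvN : max (2 ^ (k + 2)) N ≤ v.choose 2 := choose_large _ v (le_max_right _ _)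
    obtain ⟨G, hG1, hG2⟩ := main (v := v) hk3
      (le_trans (Nat.pow_le_pow_right (by norm_num) (by omega)) ((le_max_left _ _).trans hvN))
    have h1 := hv₀ v (le_max_left _ _) G hG1
    have h2 := hG2.trans h1
    have hN' : (N : ℝ) ≤ (v.choose 2 : ℝ) := by exact_mod_cast (le_max_right _ _).trans hvN
    have h3 : 2 * 2 ^ k < (1 - α) * (v.choose 2 : ℝ) := by
      rw [div_lt_iff₀ (by linarith)] at hN
      nlinarith
    have hpk : (0 : ℝ) < 2 ^ k := by positivity
    have h4 : 2 < (1 - α) * ((1 / 2) ^ k * (v.choose 2 : ℝ)) := by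
      have : (1 - α) * ((1 / 2) ^ k * (v.choose 2 : ℝ)) = ((1 - α) * (v.choose 2 : ℝ)) / 2 ^ k := by
        rw [one_div, inv_pow]
        field_simp
      rw [this, lt_div_iff₀ hpk]
      exact h3
    have h5 : 0 < (1 / 2) ^ k * (v.choose 2 : ℝ) - 2 := by
      have h6 : (2 : ℝ) ^ (k + 2) ≤ (v.choose 2 : ℝ) := by
        exact_mod_cast (le_max_left _ _).trans hvN
      have h7 : (1 / 2) ^ k * (v.choose 2 : ℝ) = (v.choose 2 : ℝ) / 2 ^ k := by
        rw [one_div, inv_pow]
        field_simp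
      have h8 : (4 : ℝ) ≤ (v.choose 2 : ℝ) / 2 ^ k := by
        rw [le_div_iff₀ hpk]
        calc (4 : ℝ) * 2 ^ k = 2 ^ (k + 2) := by ring
          _ ≤ _ := h6
      rw [h7]
      linarith
    rcases (ENNReal.ofReal_le_ofReal_iff').1 h2 with h | h
    · linarith
    · linarith

end Pool.Agent.Results.MP_cccbef_lc.FarFromFarGraphs
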